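import Pool.Agent.Helper54.S4.Stmts

namespace Pool.Agent.Helper54.S4

open Finset Pool.Agent.Helper54.SP

theorem al4_eq (f : ℕ → ℕ → ℕ → ℕ → Bool) (a b c d p q r s : ℕ)
    (h1 : min (min a b) (min c d) = p)
    (h2 : min (max (min a b) (min c d)) (min (max a b) (max c d)) = q)
    (h3 : max (max (min a b) (min c d)) (min (max a b) (max c d)) = r)
    (h4 : max (max a b) (max c d) = s) :
    alt4 f [a, b, c, d] = xor (inv4 a b c d) (f p q r s) := by
  subst h1 h2 h3 h4
  rfl

theorem al4_ev (f : ℕ → ℕ → ℕ → ℕ → Bool) (a b c d : ℕ) :
    alt4 f [a, b, c, d] = xor (inv4 a b c d) (f (min (min a b) (min c d))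
    (min (max (min a b) (min c d)) (min (max a b) (max c d)))
    (max (max (min a b) (min c d)) (min (max a b) (max c d))) (max (max a b) (max c d))) := rfl

theorem al4_lt {a b : ℕ} (h : a ≠ b) : decide (a < b) = !decide (b < a) := by
  rcases lt_or_gt_of_ne h with h' | h'
  · simp [h', not_lt.mpr h'.le]
  · have h'' : b < a := h'
    simp [h'', not_lt.mpr h''.le]

theorem al4_ab (f : ℕ → ℕ → ℕ → ℕ → Bool) (a b c d : ℕ) (h : a ≠ b) :
    alt4 f [b, a, c, d] = !alt4 f [a, b, c, d] := by
  rw [al4_ev, al4_ev, min_comm b a, max_comm b a]
  unfold inv4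
  rw [al4_lt h]
  generalize f _ _ _ _ = z
  generalize decide (b < a) = b1
  generalize decide (c < a) = b2
  generalize decide (d < a) = b3
  generalize decide (c < b) = b4
  generalize decide (d < b) = b5
  generalize decide (d < c) = b6
  revert z b1 b2 b3 b4 b5 b6
  decide

theorem al4_cd (f : ℕ → ℕ → ℕ → ℕ → Bool) (a b c d : ℕ) (h : c ≠ d) :
    alt4 f [a, b, d, c] = !alt4 f [a, b, c, d] := by
  rw [al4_ev, al4_ev, min_comm d c, max_comm d c]
  unfold inv4
  rw [al4_lt h]
  generalize f _ _ _ _ = z
  generalize decide (b < a) = b1
  generalize decide (c < a) = b2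
  generalize decide (d < a) = b3
  generalize decide (c < b) = b4
  generalize decide (d < b) = b5
  generalize decide (d < c) = b6
  revert z b1 b2 b3 b4 b5 b6
  decide

theorem al4_bc (f : ℕ → ℕ → ℕ → ℕ → Bool) (a b c d : ℕ) (h : b ≠ c) :
    alt4 f [a, c, b, d] = !alt4 f [a, b, c, d] := by
  have e1 : min (min a c) (min b d) = min (min a b) (min c d) := by omega
  have e2 : min (max (min a c) (min b d)) (min (max a c) (max b d))
      = min (max (min a b) (min c d)) (min (max a b) (max c d)) := by omega
  have e3 : max (max (min a c) (min b d)) (min (max a c) (max b d))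
      = max (max (min a b) (min c d)) (min (max a b) (max c d)) := by omega
  have e4 : max (max a c) (max b d) = max (max a b) (max c d) := by omega
  rw [al4_ev, al4_ev, e1, e2, e3, e4]
  unfold inv4
  rw [al4_lt h]
  generalize f _ _ _ _ = z
  generalize decide (b < a) = b1
  generalize decide (c < a) = b2
  generalize decide (d < a) = b3
  generalize decide (c < b) = b4
  generalize decide (d < b) = b5
  generalize decide (d < c) = b6
  revert z b1 b2 b3 b4 b5 b6
  decide

theorem st_AL4 : ST_AL4 := by
  intro f n
  refine ⟨?_, ?_, ?_, ?_, ?_⟩
  · intro l₁ l₂ a b hl hn _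
    match l₁, l₂, hl, hn with
    | [], [c, d], _, hn =>
      have hab : a ≠ b := by
        intro e
        simp [e] at hn
      exact al4_ab f a b c d hab
    | [x], [d], _, hn =>
      have hab : a ≠ b := by
        intro e
        simp [e] at hn
      exact al4_bc f x a b d hab
    | [x, y], [], _, hn =>
      have hab : a ≠ b := by
        intro e
        simp [e] at hn
      exact al4_cd f x y a b hab
    | [], [], hl, _ => simp at hl
    | [], [_], hl, _ => simp at hl
    | [], _ :: _ :: _ :: _, hl, _ => simp at hl
    | [_], [], hl, _ => simp at hl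
    | [_], _ :: _ :: _, hl, _ => simp at hl
    | [_, _], _ :: _, hl, _ => simp at hl
    | _ :: _ :: _ :: _, _, hl, _ => simp at hl; omega
  · intro a b c d h1 h2 h3
    rw [al4_eq f a b c d a b c d (by omega) (by omega) (by omega) (by omega)]
    have e : inv4 a b c d = false := by
      unfold inv4
      simp only [decide_eq_false (show ¬ b < a by omega), decide_eq_false (show ¬ c < a by omega),
        decide_eq_false (show ¬ d < a by omega), decide_eq_false (show ¬ c < b by omega),
        decide_eq_false (show ¬ d < b by omega), decide_eq_false (show ¬ d < c by omega)]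
      rfl
    rw [e, Bool.false_xor]
  · intro a b c d h1 h2 h3
    rw [al4_eq f a b c d d a b c (by omega) (by omega) (by omega) (by omega)]
    have e : inv4 a b c d = true := by
      unfold inv4
      simp only [decide_eq_false (show ¬ b < a by omega), decide_eq_false (show ¬ c < a by omega),
        decide_eq_true (show d < a by omega), decide_eq_false (show ¬ c < b by omega),
        decide_eq_true (show d < b by omega), decide_eq_true (show d < c by omega)]
      rfl
    rw [e, Bool.true_xor]
  · intro a b c d h1 h2 h3 h4
    rw [al4_eq f a b c d a d b c (by omega) (by omega) (by omega) (by omega)]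
    have e : inv4 a b c d = false := by
      unfold inv4
      simp only [decide_eq_false (show ¬ b < a by omega), decide_eq_false (show ¬ c < a by omega),
        decide_eq_false (show ¬ d < a by omega), decide_eq_false (show ¬ c < b by omega),
        decide_eq_true (show d < b by omega), decide_eq_true (show d < c by omega)]
      rfl
    rw [e, Bool.false_xor]
  · intro a b c d h1 h2 h3 h4
    rw [al4_eq f a b c d a b d c (by omega) (by omega) (by omega) (by omega)]
    have e : inv4 a b c d = true := by
      unfold inv4
      simp only [decide_eq_false (show ¬ b < a by omega), decide_eq_false (show ¬ c < a by omega),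
        decide_eq_false (show ¬ d < a by omega), decide_eq_false (show ¬ c < b by omega),
        decide_eq_false (show ¬ d < b by omega), decide_eq_true (show d < c by omega)]
      rfl
    rw [e, Bool.true_xor]

end Pool.Agent.Helper54.S4
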