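import Pool.Agent.Helper54.S4.Stmts

namespace Pool.Agent.Helper54.S4

open Finset Pool.Agent.Helper54.SP

theorem ev5_gen (ρ : ℕ → ℕ) (χ : List ℕ → Bool) (a b c d e : ℕ) :
    (ρ b < ρ a → ρ c < ρ a → ρ d < ρ a → ρ e < ρ a →
      lexs ρ χ [a, b, c, d, e] = χ [b, c, d, e]) ∧
    (ρ a < ρ b → ρ c < ρ b → ρ d < ρ b → ρ e < ρ b →
      lexs ρ χ [a, b, c, d, e] = !χ [a, c, d, e]) ∧
    (ρ a < ρ c → ρ b < ρ c → ρ d < ρ c → ρ e < ρ c →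
      lexs ρ χ [a, b, c, d, e] = χ [a, b, d, e]) ∧
    (ρ a < ρ d → ρ b < ρ d → ρ c < ρ d → ρ e < ρ d →
      lexs ρ χ [a, b, c, d, e] = !χ [a, b, c, e]) ∧
    (ρ a < ρ e → ρ b < ρ e → ρ c < ρ e → ρ d < ρ e →
      lexs ρ χ [a, b, c, d, e] = χ [a, b, c, d]) := by
  refine ⟨?_, ?_, ?_, ?_, ?_⟩
  · intro h1 h2 h3 h4
    simp [lexs, amax, h1.le, h2.le, h3.le, h4.le]
  · intro h1 h2 h3 h4
    simp [lexs, amax, not_le.mpr h1, h2.le, h3.le, h4.le]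
  · intro h1 h2 h3 h4
    simp [lexs, amax, not_le.mpr h1, not_le.mpr h2, h3.le, h4.le]
  · intro h1 h2 h3 h4
    simp [lexs, amax, not_le.mpr h1, not_le.mpr h2, not_le.mpr h3, h4.le]
  · intro h1 h2 h3 h4
    simp [lexs, amax, not_le.mpr h1, not_le.mpr h2, not_le.mpr h3, not_le.mpr h4]

theorem st_EV5 : ST_EV5 := by
  intro Γ nw a b c d e
  exact ev5_gen (rb Γ nw) (ch4 Γ nw) a b c d e

end Pool.Agent.Helper54.S4
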